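import Mathlib

namespace Pool.Agent.Results.MP_f1fe0b_lc.Trap

variable {n : ℕ} {A : Fin n → Type}

/-- player `i` plays a best response at the profile `a` -/
def Sat (r : Fin n → (∀ i, A i) → ℝ) (a : ∀ i, A i) (i : Fin n) : Prop :=
  ∀ b : A i, r i (Function.update a i b) ≤ r i a

/-- every induced subgame has a strict pure Nash equilibrium -/
def AllStrict (r : Fin n → (∀ i, A i) → ℝ) : Prop :=
  ∀ (N : Finset (Fin n)) (x : ∀ i, A i), ∃ a : ∀ i, A i, (∀ i ∉ N, a i = x i) ∧
    ∀ i ∈ N, ∀ b : A i, b ≠ a i → r i (Function.update a i b) < r i a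

/-- edges of the satisficing graph -/
def Edge (r : Fin n → (∀ i, A i) → ℝ) (a a' : ∀ i, A i) : Prop := ∀ i, Sat r a i → a' i = a i

def code (a : Fin 4 → Bool) : ℕ :=
  (a 0).toNat + 2 * (a 1).toNat + 4 * (a 2).toNat + 8 * (a 3).toNat

def s (i : Fin 4) (a : Fin 4 → Bool) : ℕ := (17296926958745542320 >>> (4 * code a + i.val)) % 2

def T (a : Fin 4 → Bool) : Bool := Nat.testBit 5438 (code a)

theorem result : ∃ (n : ℕ) (A : Fin n → Type) (_ : ∀ i, Finite (A i))
    (r : Fin n → (∀ i, A i) → ℝ), AllStrict r ∧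
    ∃ a, ∀ a', Relation.ReflTransGen (Edge r) a a' → ¬ ∀ i, Sat r a' i := by
  refine ⟨4, fun _ => Bool, inferInstance, fun i a => s i a, ?_, ![true, false, false, false], ?_⟩
  · simp only [AllStrict, Nat.cast_lt]
    decide +kernel
  · intro a h
    have : T a = true := by
      induction h with
      | refl => decide
      | tail _ h ih =>
        have key : ∀ x y : Fin 4 → Bool, T x = true →
            (∀ i, (∀ b, s i (Function.update x i b) ≤ s i x) → y i = x i) → T y = true := by
          decide +kernel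
        simp only [Edge, Sat, Nat.cast_le] at h
        exact key _ _ ih h
    simp only [Sat, Nat.cast_le]
    clear h
    revert a
    decide +kernel

end Pool.Agent.Results.MP_f1fe0b_lc.Trap
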